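import Pool.Agent.Q55.FC.Stm

universe u

namespace Pool.Agent.Q68.FC

open MulOpposite Pool.Agent.Q55.FC Cardinal

/-- a small set containing `b₀` and closed under `Φ` -/
theorem small_closure {B : Type u} (κ : Cardinal.{u}) (hκ : ℵ₀ ≤ κ) (Φ : B → B → Set B)
    (hΦ : ∀ b b', #(Φ b b') ≤ κ) (b₀ : B) :
    ∃ C : Set B, b₀ ∈ C ∧ (∀ b ∈ C, ∀ b' ∈ C, Φ b b' ⊆ C) ∧ #C ≤ κ := by
  let step : Set B → Set B := fun C => C ∪ ⋃ b ∈ C, ⋃ b' ∈ C, Φ b b'
  let D : ℕ → Set B := fun n => step^[n] {b₀}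
  have hD : ∀ n, D (n + 1) = D n ∪ ⋃ b ∈ D n, ⋃ b' ∈ D n, Φ b b' := fun n => by
    change step^[n + 1] {b₀} = _
    rw [Function.iterate_succ_apply']
  have hcard : ∀ n, #(D n) ≤ κ := by
    intro n
    induction n with
    | zero =>
      change #({b₀} : Set B) ≤ κ
      rw [Cardinal.mk_singleton]
      exact Cardinal.one_le_aleph0.trans hκ
    | succ n ih =>
      rw [hD]
      refine (Cardinal.mk_union_le _ _).trans ?_
      have h1 : #(⋃ b ∈ D n, ⋃ b' ∈ D n, Φ b b' : Set B) ≤ κ := by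
        refine (Cardinal.mk_biUnion_le _ _).trans ?_
        have h2 : (⨆ b : D n, #(⋃ b' ∈ D n, Φ b b' : Set B)) ≤ κ := by
          refine ciSup_le' fun b => ?_
          refine (Cardinal.mk_biUnion_le _ _).trans ?_
          have h3 : (⨆ b' : D n, #(Φ b b')) ≤ κ := ciSup_le' fun b' => hΦ _ _
          exact (mul_le_mul' ih h3).trans (Cardinal.mul_eq_self hκ).le
        exact (mul_le_mul' ih h2).trans (Cardinal.mul_eq_self hκ).le
      exact (add_le_add ih h1).trans (Cardinal.add_eq_self hκ).le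
  have hmono : ∀ n, D n ⊆ D (n + 1) := fun n => by
    rw [hD]
    exact Set.subset_union_left
  have hmono' : Monotone D := monotone_nat_of_le_succ hmono
  refine ⟨⋃ n, D n, Set.mem_iUnion.2 ⟨0, rfl⟩, ?_, ?_⟩
  · intro b hb b' hb' x hx
    obtain ⟨n, hn⟩ := Set.mem_iUnion.1 hb
    obtain ⟨m, hm⟩ := Set.mem_iUnion.1 hb'
    refine Set.mem_iUnion.2 ⟨max n m + 1, ?_⟩
    rw [hD]
    refine Or.inr ?_
    simp only [Set.mem_iUnion]
    exact ⟨b, hmono' (le_max_left n m) hn, b', hmono' (le_max_right n m) hm, hx⟩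
  · have h1 : (⋃ n, D n) = ⋃ n : ULift.{u} ℕ, D n.down := by
      ext x
      simp only [Set.mem_iUnion]
      exact ⟨fun ⟨n, hn⟩ => ⟨⟨n⟩, hn⟩, fun ⟨n, hn⟩ => ⟨n.down, hn⟩⟩
    rw [h1]
    refine (Cardinal.mk_iUnion_le _).trans ?_
    have h2 : (⨆ n : ULift.{u} ℕ, #(D n.down)) ≤ κ := ciSup_le' fun n => hcard _
    have h3 : #(ULift.{u} ℕ) ≤ κ := by
      rw [Cardinal.mk_uLift]
      simpa using hκ
    exact (mul_le_mul' h3 h2).trans (Cardinal.mul_eq_self hκ).le

/-- a zigzag uses finitely many elements -/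
theorem ZB_fin {S : Type u} [Monoid S] {B : Type u} [MulAction Sᵐᵒᵖ B] {P : Set B} :
    ∀ (w : List (Bool × S)) (b b' : B), ZB P w b b' → ∃ T : Finset B, (T : Set B) ⊆ P ∧
      ∀ P' : Set B, (T : Set B) ⊆ P' → ZB P' w b b'
  | [], b, b', h => ⟨∅, by simp, fun _ _ => h⟩
  | (true, s) :: w, b, b', h => by
      classical
      obtain ⟨c, hc, hb, h⟩ := h
      obtain ⟨T, hT, hT'⟩ := ZB_fin w c b' h
      refine ⟨insert c T, ?_, fun P' hP' => ?_⟩
      · rw [Finset.coe_insert]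
        exact Set.insert_subset hc hT
      · rw [Finset.coe_insert] at hP'
        exact ⟨c, hP' (Set.mem_insert _ _), hb, hT' P' ((Set.subset_insert _ _).trans hP')⟩
  | (false, s) :: w, b, b', h => ZB_fin w (op s • b) b' h

theorem clo : S_Clo.{u} := by
  classical
  intro S _ B _ A hA b₀
  have fin1 : ∀ (P : Set B) (w : List (Bool × S)) (b b' : B), ∃ T : Finset B,
      ZB P w b b' → (T : Set B) ⊆ P ∧ ∀ P' : Set B, (T : Set B) ⊆ P' → ZB P' w b b' := by
    intro P w b b'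
    by_cases h : ZB P w b b'
    · obtain ⟨T, hT⟩ := ZB_fin w b b' h
      exact ⟨T, fun _ => hT⟩
    · exact ⟨∅, fun h' => absurd h' h⟩
  choose T hT using fin1
  have cho : ∀ (P : Set B) (w : List (Bool × S)) (b : B), ∃ T : Finset B, ∀ b' ∈ P,
      ZB Set.univ w b b' → ∃ b'' ∈ P, b'' ∈ T ∧ ZB Set.univ w b b'' := by
    intro P w b
    by_cases h : ∃ b' ∈ P, ZB Set.univ w b b'
    · obtain ⟨b', h1, h2⟩ := h
      exact ⟨{b'}, fun _ _ _ => ⟨b', h1, by simp, h2⟩⟩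
    · exact ⟨∅, fun b' h1 h2 => absurd ⟨b', h1, h2⟩ h⟩
  choose U hU using cho
  let F : List (Bool × S) → B → B → Finset B := fun w b b' =>
    T Set.univ w b b' ∪ T A w b b' ∪ U Set.univ w b ∪ U A w b
  let Φ : B → B → Set B := fun b b' => (Set.range fun s : S => op s • b) ∪ ⋃ w, (F w b b' : Set B)
  have hκ : ℵ₀ ≤ #(ℕ × S) := by
    rw [Cardinal.aleph0_le_mk_iff]
    infer_instance
  have hS : #S ≤ #(ℕ × S) := by
    refine Cardinal.mk_le_of_injective (f := fun s => ((0 : ℕ), s)) ?_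
    intro a b h
    exact (Prod.mk.inj h).2
  have hL : #(List (Bool × S)) ≤ #(ℕ × S) := by
    refine (Cardinal.mk_list_le_max _).trans (max_le hκ ?_)
    refine Cardinal.mk_le_of_injective (f := fun p : Bool × S => (p.1.toNat, p.2)) ?_
    rintro ⟨a, s⟩ ⟨b, t⟩ h
    obtain ⟨h1, h2⟩ := Prod.mk.inj h
    simp only at h1 h2
    subst h2
    cases a <;> cases b <;> simp_all
  have hΦ : ∀ b b', #(Φ b b') ≤ #(ℕ × S) := by
    intro b b'
    refine (Cardinal.mk_union_le _ _).trans ?_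
    have h1 : #(Set.range fun s : S => op s • b) ≤ #(ℕ × S) := Cardinal.mk_range_le.trans hS
    have h2 : #(⋃ w, (F w b b' : Set B) : Set B) ≤ #(ℕ × S) := by
      refine (Cardinal.mk_iUnion_le _).trans ?_
      have h3 : (⨆ w, #((F w b b' : Set B))) ≤ #(ℕ × S) := by
        refine ciSup_le' fun w => ?_
        refine (Cardinal.lt_aleph0_of_finite _).le.trans hκ
      exact (mul_le_mul' hL h3).trans (Cardinal.mul_eq_self hκ).le
    exact (add_le_add h1 h2).trans (Cardinal.add_eq_self hκ).le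
  obtain ⟨C, hb₀, hC, hcard⟩ := small_closure _ hκ Φ hΦ b₀
  have hF : ∀ w, ∀ b ∈ C, ∀ b' ∈ C, (F w b b' : Set B) ⊆ C := by
    intro w b hb b' hb' x hx
    exact hC b hb b' hb' (Or.inr (Set.mem_iUnion.2 ⟨w, hx⟩))
  have two : ∀ w : List (Bool × S), ∀ b ∈ C, ∀ b' ∈ C, ZB Set.univ w b b' → ZB C w b b' := by
    intro w b hb b' hb' h
    refine (hT Set.univ w b b' h).2 C ?_
    intro x hx
    refine hF w b hb b' hb' ?_
    have hx' : x ∈ T Set.univ w b b' := hx
    change x ∈ F w b b'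
    simp only [F, Finset.mem_union]
    exact Or.inl (Or.inl (Or.inl hx'))
  refine ⟨C, hb₀, ⟨?_, two, ?_, ?_, ?_⟩, ?_⟩
  · intro s b hb
    exact hC b hb b hb (Or.inl ⟨s, rfl⟩)
  · intro w b hb b' h
    obtain ⟨b'', _, h1, h2⟩ := hU Set.univ w b b' trivial h
    have h3 : b'' ∈ C := by
      refine hF w b hb b hb ?_
      change b'' ∈ F w b b
      simp only [F, Finset.mem_union]
      exact Or.inl (Or.inr h1)
    exact ⟨b'', h3, two w b hb b'' h3 h2⟩
  · intro w b hb b' hb' h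
    obtain ⟨b'', h0, h1, h2⟩ := hU A w b b' hb' h
    have h3 : b'' ∈ C := by
      refine hF w b hb b hb ?_
      change b'' ∈ F w b b
      simp only [F, Finset.mem_union]
      exact Or.inr h1
    exact ⟨b'', ⟨h0, h3⟩, two w b hb b'' h3 h2⟩
  · intro w b hb b' hb' h
    refine (hT A w b b' h).2 (A ∩ C) ?_
    intro x hx
    refine ⟨(hT A w b b' h).1 hx, hF w b hb.2 b' hb'.2 ?_⟩
    have hx' : x ∈ T A w b b' := hx
    change x ∈ F w b b'
    simp only [F, Finset.mem_union]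
    exact Or.inl (Or.inl (Or.inr hx'))
  · obtain ⟨i⟩ := (Cardinal.le_def _ _).1 hcard
    exact ⟨i, i.injective⟩

end Pool.Agent.Q68.FC
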