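import Pool.Agent.Q55.FC.Stm

universe u

namespace Pool.Agent.Q68.FC

open MulOpposite Pool.Agent.Q55.FC

section

variable {S : Type u} [Monoid S] {W A : Type u} [MulAction Sᵐᵒᵖ W] [MulAction Sᵐᵒᵖ A]

/-- the monoid of the endomorphisms over `A` -/
def EO (g : W →[Sᵐᵒᵖ] A) : Submonoid (Function.End W) where
  carrier := {f | (∀ (m : Sᵐᵒᵖ) (x : W), f (m • x) = m • f x) ∧ ∀ x, g (f x) = g x}
  mul_mem' := by
    rintro a b ⟨h1, h2⟩ ⟨h3, h4⟩
    refine ⟨fun m x => ?_, fun x => ?_⟩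
    · change a (b (m • x)) = m • a (b x)
      rw [h3, h1]
    · change g (a (b x)) = g x
      rw [h2, h4]
  one_mem' := ⟨fun _ _ => rfl, fun _ => rfl⟩

theorem EO_mul (g : W →[Sᵐᵒᵖ] A) (a b : EO g) (x : W) : (a * b).1 x = a.1 (b.1 x) := rfl

theorem EO_one (g : W →[Sᵐᵒᵖ] A) (x : W) : (1 : EO g).1 x = x := rfl

/-- as a homomorphism -/
def ehom {g : W →[Sᵐᵒᵖ] A} (a : EO g) : W →[Sᵐᵒᵖ] W where
  toFun := a.1
  map_smul' := a.2.1

theorem ehom_apply {g : W →[Sᵐᵒᵖ] A} (a : EO g) (x : W) : ehom a x = a.1 x := rfl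

/-- from a homomorphism -/
def eof {g : W →[Sᵐᵒᵖ] A} (f : W →[Sᵐᵒᵖ] W) (hf : ∀ x, g (f x) = g x) : EO g :=
  ⟨fun x => f x, fun m x => by simp, hf⟩

theorem hyp_rec (dir : S_Dir.{u}) (g : W →[Sᵐᵒᵖ] A) (hg : IsFlatPrecover S g) :
    ∀ (I : Type u) [LinearOrder I] [Nonempty I] (k : I → I → EO g), (∀ i, k i i = 1) →
    (∀ i j l, i ≤ j → j ≤ l → k j l * k i j = k i l) →
      ∃ c : I → EO g, ∀ i j, i ≤ j → c j * k i j = c i := by
  intro I _ _ k h1 h2
  obtain ⟨D, instD, γ, ι, hD, hι, hγ, -, -⟩ := dir S W A g I (fun i j => ehom (k i j))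
    (fun i x => by rw [ehom_apply, h1, EO_one])
    (fun i j l hij hjl x => by
      rw [ehom_apply, ehom_apply, ehom_apply, ← EO_mul, h2 i j l hij hjl])
    (fun i j _ x => (k i j).2.2 x) hg.1
  obtain ⟨r, hr⟩ := hg.2 D γ hD
  have hr' : ∀ d, g (r d) = γ d := fun d => DFunLike.congr_fun hr d
  refine ⟨fun i => eof (r.comp (ι i)) (fun x => ?_), fun i j hij => ?_⟩
  · change g (r (ι i x)) = g x
    rw [hr', hγ]
  · refine Subtype.ext (funext fun x => ?_)
    change r (ι j ((k i j).1 x)) = r (ι i x)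
    have := hι i j hij x
    rw [ehom_apply] at this
    rw [this]

theorem step3 (dir : S_Dir.{u}) (rec : S_Rec.{u}) (g : W →[Sᵐᵒᵖ] A) (hg : IsFlatPrecover S g)
    (hinj : ∀ f : EO g, Function.Injective f.1) (f : EO g) : Function.Surjective f.1 := by
  classical
  by_contra hf
  rw [Function.Surjective] at hf
  push Not at hf
  obtain ⟨z, hz⟩ := hf
  obtain ⟨lo, wf⟩ := exists_wellOrder (Set W)
  obtain ⟨t, e, c, -, hc⟩ := @rec (EO g) _ (hyp_rec dir g hg) (Set W) lo wf ⟨∅⟩ (fun _ _ => f)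
  refine Function.cantor_injective (fun i => (c i).1 z) ?_
  have key : ∀ i j : Set W, @LT.lt (Set W) lo.toLT i j → (c i).1 z ≠ (c j).1 z := by
    intro i j hij h
    obtain ⟨d, hd⟩ := hc i j hij
    have h1 : (c i).1 z = (c j).1 (f.1 (d.1 z)) := by
      rw [hd]
      rfl
    rw [h1] at h
    exact hz _ (hinj (c j) h)
  intro i j hij
  rcases @lt_trichotomy (Set W) lo i j with h | h | h
  · exact absurd hij (key i j h)
  · exact h
  · exact absurd hij.symm (key j i h)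

theorem step1 (dir : S_Dir.{u}) (rec : S_Rec.{u}) (g : W →[Sᵐᵒᵖ] A) (hg : IsFlatPrecover S g) :
    ∃ e : EO g, ∀ (h : EO g) (x y : W), h.1 (e.1 x) = h.1 (e.1 y) → e.1 x = e.1 y := by
  classical
  rcases isEmpty_or_nonempty W with hW | hW
  · exact ⟨1, fun h x => (hW.false x).elim⟩
  obtain ⟨lo, wf⟩ := exists_wellOrder (W × W)
  obtain ⟨t, e, c, ht, -⟩ := @rec (EO g) _ (hyp_rec dir g hg) (W × W) lo wf inferInstance
    (fun p e => if h : ∃ h : EO g, h.1 (e.1 p.1) = h.1 (e.1 p.2) then Classical.choose h else 1)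
  refine ⟨t, fun h x y hxy => ?_⟩
  have h1 := ht (x, y)
  set Φ : EO g := (if h : ∃ h : EO g, h.1 ((e (x, y)).1 (x, y).1) = h.1 ((e (x, y)).1 (x, y).2)
    then Classical.choose h else 1) with hΦ
  have h2 : ∀ z, t.1 z = (c (x, y)).1 (Φ.1 ((e (x, y)).1 z)) := fun z => by
    rw [h1]
    rfl
  have hex : ∃ h : EO g, h.1 ((e (x, y)).1 (x, y).1) = h.1 ((e (x, y)).1 (x, y).2) := by
    refine ⟨h * c (x, y) * Φ, ?_⟩
    change h.1 ((c (x, y)).1 (Φ.1 ((e (x, y)).1 x))) = h.1 ((c (x, y)).1 (Φ.1 ((e (x, y)).1 y)))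
    rw [← h2, ← h2]
    exact hxy
  have h3 : Φ.1 ((e (x, y)).1 x) = Φ.1 ((e (x, y)).1 y) := by
    have h4 := Classical.choose_spec hex
    rw [hΦ, dif_pos hex]
    exact h4
  rw [h2, h2, h3]

end

theorem cov : S_Cov.{u} := by
  classical
  intro dir rec S _ W A _ _ g hg
  obtain ⟨e, he⟩ := step1 dir rec g hg
  obtain ⟨D, instD, γ, ι, hD, hι, hγ, hsurj, -⟩ := dir S W A g (ULift.{u} ℕ)
    (fun i j => ehom (e ^ (j.down - i.down)))
    (fun i x => by rw [ehom_apply, Nat.sub_self, pow_zero, EO_one])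
    (fun i j l hij hjl x => by
      have h1 : i.down ≤ j.down := hij
      have h2 : j.down ≤ l.down := hjl
      rw [ehom_apply, ehom_apply, ehom_apply, ← EO_mul, ← pow_add]
      have h3 : l.down - j.down + (j.down - i.down) = l.down - i.down := by omega
      rw [h3])
    (fun i j _ x => (e ^ (j.down - i.down)).2.2 x) hg.1
  have hpre : IsFlatPrecover S γ := by
    refine ⟨hD, fun F' _ h hF' => ?_⟩
    obtain ⟨f, hf⟩ := hg.2 F' h hF'
    refine ⟨(ι ⟨0⟩).comp f, ?_⟩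
    ext x
    change γ (ι ⟨0⟩ (f x)) = h x
    rw [hγ]
    exact DFunLike.congr_fun hf x
  have hinj : ∀ r : D →[Sᵐᵒᵖ] W, (∀ d, g (r d) = γ d) → Function.Injective r := by
    intro r hr d d' hdd
    obtain ⟨i, x, rfl⟩ := hsurj d
    obtain ⟨j, y, rfl⟩ := hsurj d'
    have h1 := hι i (max i j) (le_max_left _ _) x
    have h2 := hι j (max i j) (le_max_right _ _) y
    rw [← h1, ← h2] at hdd ⊢
    set n := max i j with hn
    set x' := ehom (e ^ (n.down - i.down)) x with hx'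
    set y' := ehom (e ^ (n.down - j.down)) y with hy'
    let n' : ULift.{u} ℕ := ⟨n.down + 1⟩
    have hnn : n ≤ n' := by
      change n.down ≤ n.down + 1
      omega
    have h3 : ∀ z, ι n' (e.1 z) = ι n z := by
      intro z
      have := hι n n' hnn z
      have hs : n'.down - n.down = 1 := by
        change n.down + 1 - n.down = 1
        omega
      rw [hs, pow_one, ehom_apply] at this
      exact this
    let h : EO g := eof (r.comp (ι n')) (fun z => by
      change g (r (ι n' z)) = g z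
      rw [hr, hγ])
    have h4 : h.1 (e.1 x') = h.1 (e.1 y') := by
      change r (ι n' (e.1 x')) = r (ι n' (e.1 y'))
      rw [h3, h3]
      exact hdd
    have h5 := he h x' y' h4
    rw [← h3, ← h3, h5]
  obtain ⟨r, hr⟩ := hg.2 D γ hD
  have hr' : ∀ d, g (r d) = γ d := fun d => DFunLike.congr_fun hr d
  have hinjD : ∀ f : EO γ, Function.Injective f.1 := by
    intro f
    have h1 := hinj (r.comp (ehom f)) (fun d => by
      change g (r (f.1 d)) = γ d
      rw [hr']
      exact f.2.2 d)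
    intro x y hxy
    apply h1
    change r (f.1 x) = r (f.1 y)
    rw [hxy]
  refine ⟨D, instD, γ, hpre, fun f hf => ?_⟩
  have hf' : ∀ x, γ (f x) = γ x := fun x => DFunLike.congr_fun hf x
  exact ⟨hinjD (eof f hf'), step3 dir rec γ hpre hinjD (eof f hf')⟩

end Pool.Agent.Q68.FC
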