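import Pool.Agent.Q55.FC.Stm

universe u

namespace Pool.Agent.Q68.FC

open MulOpposite Pool.Agent.Q55.FC

/-- the step relation of the tensor product -/
def St (S : Type u) [Monoid S] (A X : Type u) [MulAction Sᵐᵒᵖ A] [MulAction S X] :
    A × X → A × X → Prop :=
  fun p q => ∃ (a : A) (s : S) (x : X), p = (op s • a, x) ∧ q = (a, s • x)

theorem St_map {S : Type u} [Monoid S] {A A' X : Type u} [MulAction Sᵐᵒᵖ A] [MulAction Sᵐᵒᵖ A']
    [MulAction S X] (f : A →[Sᵐᵒᵖ] A') {p q : A × X} (h : Relation.EqvGen (St S A X) p q) :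
    Relation.EqvGen (St S A' X) (f p.1, p.2) (f q.1, q.2) := by
  induction h with
  | rel p q h =>
    obtain ⟨a, s, x, rfl, rfl⟩ := h
    refine Relation.EqvGen.rel _ _ ⟨f a, s, x, ?_, rfl⟩
    simp
  | refl p => exact Relation.EqvGen.refl _
  | symm p q _ ih => exact Relation.EqvGen.symm _ _ ih
  | trans p q r _ _ ih1 ih2 => exact Relation.EqvGen.trans _ _ _ ih1 ih2

theorem flat_iff {S : Type u} [Monoid S] {A : Type u} [MulAction Sᵐᵒᵖ A] :
    IsFlat S A ↔ ∀ (X Y : Type u) [MulAction S X] [MulAction S Y] (f : X →[S] Y),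
      Function.Injective f → ∀ p q : A × X,
        Relation.EqvGen (St S A Y) (p.1, f p.2) (q.1, f q.2) →
          Relation.EqvGen (St S A X) p q := by
  constructor
  · intro h X Y _ _ f hf p q hpq
    refine Quot.eqvGen_exact ?_
    refine h X Y f hf ?_
    exact Quot.eqvGen_sound hpq
  · intro h X Y _ _ f hf ξ η hξη
    obtain ⟨p, rfl⟩ := Quot.exists_rep ξ
    obtain ⟨q, rfl⟩ := Quot.exists_rep η
    exact Quot.eqvGen_sound (h X Y f hf p q (Quot.eqvGen_exact hξη))

theorem dir : S_Dir.{u} := by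
  intro S _ W A _ _ g I _ _ k hk1 hk2 hk3 hW
  let R : I × W → I × W → Prop := fun p q =>
    ∃ l, p.1 ≤ l ∧ q.1 ≤ l ∧ k p.1 l p.2 = k q.1 l q.2
  have hR : Equivalence R := by
    refine ⟨fun p => ⟨p.1, le_rfl, le_rfl, rfl⟩, ?_, ?_⟩
    · rintro p q ⟨l, h1, h2, h3⟩
      exact ⟨l, h2, h1, h3.symm⟩
    · rintro p q r ⟨l, h1, h2, h3⟩ ⟨m, h4, h5, h6⟩
      refine ⟨max l m, h1.trans (le_max_left _ _), h5.trans (le_max_right _ _), ?_⟩
      rw [← hk2 p.1 l _ h1 (le_max_left _ _), h3, hk2 q.1 l _ h2 (le_max_left _ _),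
        ← hk2 q.1 m _ h4 (le_max_right _ _), h6, hk2 r.1 m _ h5 (le_max_right _ _)]
  let D : Type u := Quotient (⟨R, hR⟩ : Setoid (I × W))
  let mk : I → W → D := fun i x => Quotient.mk (⟨R, hR⟩ : Setoid (I × W)) (i, x)
  have mk_eq : ∀ i x j y, mk i x = mk j y ↔ ∃ l, i ≤ l ∧ j ≤ l ∧ k i l x = k j l y := by
    intro i x j y
    constructor
    · intro h
      exact Quotient.exact (s := (⟨R, hR⟩ : Setoid (I × W))) h
    · intro h
      exact Quotient.sound (s := (⟨R, hR⟩ : Setoid (I × W))) h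
  have mk_surj : ∀ d : D, ∃ i x, mk i x = d := by
    intro d
    obtain ⟨⟨i, x⟩, rfl⟩ := Quotient.exists_rep d
    exact ⟨i, x, rfl⟩
  let act : Sᵐᵒᵖ → D → D := fun m => Quotient.map (fun p : I × W => (p.1, m • p.2)) (by
    rintro p q ⟨l, h1, h2, h3⟩
    refine ⟨l, h1, h2, ?_⟩
    simp only [map_smul]
    rw [h3])
  have act_mk : ∀ m i x, act m (mk i x) = mk i (m • x) := fun m i x => rfl
  letI instD : MulAction Sᵐᵒᵖ D :=
    { smul := act
      one_smul := by
        intro d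
        obtain ⟨i, x, rfl⟩ := mk_surj d
        change act 1 (mk i x) = _
        rw [act_mk, one_smul]
      mul_smul := by
        intro m m' d
        obtain ⟨i, x, rfl⟩ := mk_surj d
        change act (m * m') (mk i x) = act m (act m' (mk i x))
        rw [act_mk, act_mk, act_mk, mul_smul] }
  have smul_mk : ∀ (m : Sᵐᵒᵖ) i x, m • mk i x = mk i (m • x) := fun m i x => rfl
  let γ : D →[Sᵐᵒᵖ] A :=
    { toFun := Quotient.lift (fun p : I × W => g p.2) (by
        rintro p q ⟨l, h1, h2, h3⟩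
        change g p.2 = g q.2
        rw [← hk3 p.1 l h1, h3, hk3 q.1 l h2])
      map_smul' := by
        intro m d
        obtain ⟨i, x, rfl⟩ := mk_surj d
        change g (m • x) = m • g x
        simp }
  have γ_mk : ∀ i x, γ (mk i x) = g x := fun i x => rfl
  let ι : I → (W →[Sᵐᵒᵖ] D) := fun i =>
    { toFun := mk i
      map_smul' := fun m x => (smul_mk m i x).symm }
  have ι_mk : ∀ i x, ι i x = mk i x := fun i x => rfl
  refine ⟨D, instD, γ, ι, ?_, ?_, ?_, ?_, ?_⟩
  · rw [flat_iff]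
    intro X Y _ _ f hf
    -- lifting
    have lift : ∀ p q : D × Y, Relation.EqvGen (St S D Y) p q → ∀ i x j y, p.1 = mk i x →
        q.1 = mk j y → ∃ l, i ≤ l ∧ j ≤ l ∧
          Relation.EqvGen (St S W Y) (k i l x, p.2) (k j l y, q.2) := by
      intro p q h
      induction h with
      | rel p q h =>
        obtain ⟨d, s, z, rfl, rfl⟩ := h
        intro i x j y h1 h2
        simp only at h1 h2
        rw [h2, smul_mk, eq_comm, mk_eq] at h1
        obtain ⟨l, h3, h4, h5⟩ := h1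
        refine ⟨l, h3, h4, Relation.EqvGen.rel _ _ ⟨k j l y, s, z, ?_, rfl⟩⟩
        rw [h5, map_smul]
      | refl p =>
        intro i x j y h1 h2
        rw [h1, mk_eq] at h2
        obtain ⟨l, h3, h4, h5⟩ := h2
        refine ⟨l, h3, h4, ?_⟩
        rw [h5]
        exact Relation.EqvGen.refl _
      | symm p q _ ih =>
        intro i x j y h1 h2
        obtain ⟨l, h3, h4, h5⟩ := ih j y i x h2 h1
        exact ⟨l, h4, h3, Relation.EqvGen.symm _ _ h5⟩
      | trans p q r _ _ ih1 ih2 =>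
        intro i x j y h1 h2
        obtain ⟨m, z, hz⟩ := mk_surj q.1
        obtain ⟨l, h3, h4, h5⟩ := ih1 i x m z h1 hz.symm
        obtain ⟨l', h6, h7, h8⟩ := ih2 m z j y hz.symm h2
        refine ⟨max l l', h3.trans (le_max_left _ _), h7.trans (le_max_right _ _), ?_⟩
        have h9 := St_map (k l (max l l')) h5
        have h10 := St_map (k l' (max l l')) h8
        simp only at h9 h10
        rw [hk2 i l _ h3 (le_max_left _ _), hk2 m l _ h4 (le_max_left _ _)] at h9
        rw [hk2 m l' _ h6 (le_max_right _ _), hk2 j l' _ h7 (le_max_right _ _)] at h10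
        exact Relation.EqvGen.trans _ _ _ h9 h10
    rintro ⟨d, a⟩ ⟨d', a'⟩ h
    obtain ⟨i, x, rfl⟩ := mk_surj d
    obtain ⟨j, y, rfl⟩ := mk_surj d'
    obtain ⟨l, h1, h2, h3⟩ := lift _ _ h i x j y rfl rfl
    have h4 := flat_iff.1 hW X Y f hf (k i l x, a) (k j l y, a') h3
    have h5 := St_map (ι l) h4
    simp only [ι_mk] at h5
    have e1 : mk l (k i l x) = mk i x := by
      rw [mk_eq]
      exact ⟨l, le_rfl, h1, by rw [hk1]⟩
    have e2 : mk l (k j l y) = mk j y := by
      rw [mk_eq]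
      exact ⟨l, le_rfl, h2, by rw [hk1]⟩
    rw [e1, e2] at h5
    exact h5
  · intro i j hij x
    rw [ι_mk, ι_mk, mk_eq]
    exact ⟨j, le_rfl, hij, by rw [hk1]⟩
  · intro i x
    rfl
  · intro d
    exact mk_surj d
  · intro i x y h
    rw [ι_mk, ι_mk, mk_eq] at h
    obtain ⟨l, h1, _, h3⟩ := h
    exact ⟨l, h1, h3⟩

end Pool.Agent.Q68.FC
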