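import Pool.Agent.Q68.FC.Uni

universe u

namespace Pool.Agent.Q68.FC

open MulOpposite Pool.Agent.Q55.FC

/-- a partial lifting -/
structure Part (S : Type u) [Monoid S] {F' F A : Type u} [MulAction Sᵐᵒᵖ F'] [MulAction Sᵐᵒᵖ F]
    [MulAction Sᵐᵒᵖ A] (g : F →[Sᵐᵒᵖ] A) (h : F' →[Sᵐᵒᵖ] A) (Γ : Set (F' × F)) : Prop where
  cl : ∀ (s : S), ∀ p ∈ Γ, ((op s • p.1, op s • p.2) : F' × F) ∈ Γ
  fn : ∀ p ∈ Γ, ∀ q ∈ Γ, p.1 = q.1 → p.2 = q.2
  co : ∀ p ∈ Γ, g p.2 = h p.1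
  rf : RF S (Prod.fst '' Γ) Set.univ

theorem Part.rsub {S : Type u} [Monoid S] {F' F A : Type u} [MulAction Sᵐᵒᵖ F']
    [MulAction Sᵐᵒᵖ F] [MulAction Sᵐᵒᵖ A] {g : F →[Sᵐᵒᵖ] A} {h : F' →[Sᵐᵒᵖ] A}
    {Γ : Set (F' × F)} (H : Part S g h Γ) : RSub S (Prod.fst '' Γ) := by
  rintro s _ ⟨p, hp, rfl⟩
  exact ⟨_, H.cl s p hp, rfl⟩

theorem lif : S_Lif.{u} := by
  classical
  intro zig uni clo cha tra S _ F A _ _ g hEP F' _ h hF'
  have h0 : Part S g h (∅ : Set (F' × F)) := by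
    refine ⟨fun s p hp => absurd hp (Set.notMem_empty p),
      fun p hp => absurd hp (Set.notMem_empty p), fun p hp => absurd hp (Set.notMem_empty p), ?_⟩
    rw [Set.image_empty]
    exact hF'
  obtain ⟨Γ, -, hΓ⟩ := zorn_subset_nonempty {Γ : Set (F' × F) | Part S g h Γ} (by
    intro c hc hchain hne
    refine ⟨⋃₀ c, ?_, fun s hs => Set.subset_sUnion_of_mem hs⟩
    change Part S g h (⋃₀ c)
    refine ⟨?_, ?_, ?_, ?_⟩
    · rintro s p ⟨Γ, hΓ, hp⟩
      exact ⟨Γ, hΓ, (hc hΓ : Part S g h Γ).cl s p hp⟩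
    · rintro p ⟨Γ, hΓ, hp⟩ q ⟨Γ', hΓ', hq⟩ hpq
      rcases hchain.total hΓ hΓ' with h1 | h1
      · exact (hc hΓ' : Part S g h Γ').fn p (h1 hp) q hq hpq
      · exact (hc hΓ : Part S g h Γ).fn p hp q (h1 hq) hpq
    · rintro p ⟨Γ, hΓ, hp⟩
      exact (hc hΓ : Part S g h Γ).co p hp
    · have e : Prod.fst '' (⋃₀ c) = ⋃₀ ((fun Γ : Set (F' × F) => Prod.fst '' Γ) '' c) := by
        rw [Set.sUnion_image, Set.image_sUnion]
        simp only [Set.sUnion_image]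
      rw [e]
      refine (cha S F' _ (hne.image _) ?_ ?_).1 ?_
      · rintro _ ⟨Γ, hΓ, rfl⟩ _ ⟨Γ', hΓ', rfl⟩ _
        rcases hchain.total hΓ hΓ' with h1 | h1
        · exact Or.inl (Set.image_mono h1)
        · exact Or.inr (Set.image_mono h1)
      · rintro _ ⟨Γ, hΓ, rfl⟩
        exact (hc hΓ : Part S g h Γ).rsub
      · rintro _ ⟨Γ, hΓ, rfl⟩
        exact (hc hΓ : Part S g h Γ).rf) ∅ h0
  have HΓ : Part S g h Γ := hΓ.prop
  have hall : ∀ b₀ : F', b₀ ∈ Prod.fst '' Γ := by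
    intro b₀
    by_contra hb₀
    obtain ⟨C, hbC, hC, i, hi⟩ := clo S F' (Prod.fst '' Γ) HΓ.rsub b₀
    obtain ⟨U1, U2⟩ := uni zig S F' (Prod.fst '' Γ) C HΓ.rsub hC HΓ.rf
    let CC : SubMulAction Sᵐᵒᵖ F' :=
      { carrier := C
        smul_mem' := fun m x hx => by
          have := hC.sub (unop m) x hx
          rwa [op_unop] at this }
    have memCC : ∀ x, x ∈ CC ↔ x ∈ C := fun x => Iff.rfl
    let j : CC →[Sᵐᵒᵖ] F' :=
      { toFun := fun x => (x : F')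
        map_smul' := fun m x => rfl }
    have hj : Function.Injective j := Subtype.val_injective
    let A₀ : Set CC := {c | (c : F') ∈ Prod.fst '' Γ}
    have e1 : j '' A₀ = Prod.fst '' Γ ∩ C := by
      ext x
      constructor
      · rintro ⟨c, hc, rfl⟩
        exact ⟨hc, c.2⟩
      · rintro ⟨h1, h2⟩
        exact ⟨⟨x, h2⟩, h1, rfl⟩
    have e2 : Set.range j = C := by
      ext x
      constructor
      · rintro ⟨c, rfl⟩
        exact c.2
      · intro hx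
        exact ⟨⟨x, hx⟩, rfl⟩
    have hRF : RF S A₀ Set.univ := by
      rw [← tra S CC F' j hj A₀, e1, e2]
      exact U1
    have hsub : RSub S A₀ := fun s c hc => HΓ.rsub s c hc
    choose v hv using fun a : A₀ => a.2
    have hcompat : ∀ (s : S) (a a' : A₀), (a' : CC) = op s • (a : CC) →
        (v a').2 = op s • (v a).2 := by
      intro s a a' haa
      have h1 := HΓ.cl s (v a) (hv a).1
      refine HΓ.fn (v a') (hv a').1 _ h1 ?_
      simp only
      rw [(hv a').2, (hv a).2, haa]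
      rfl
    obtain ⟨v', hv'1, hv'2⟩ := hEP CC A₀ hsub hRF ⟨i, hi⟩ (h.comp j) (fun a => (v a).2) hcompat
      (fun a => by
        have := HΓ.co (v a) (hv a).1
        rw [this, (hv a).2]
        rfl)
    let Δ : Set (F' × F) := Γ ∪ Set.range fun c : CC => ((c : F'), v' c)
    have hΔ : Part S g h Δ := by
      have cross : ∀ p ∈ Γ, ∀ c : CC, p.1 = (c : F') → p.2 = v' c := by
        intro p hp c hpc
        have hc : c ∈ A₀ := ⟨p, hp, hpc⟩
        rw [hv'1 ⟨c, hc⟩]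
        refine HΓ.fn p hp _ (hv ⟨c, hc⟩).1 ?_
        rw [(hv ⟨c, hc⟩).2, hpc]
      refine ⟨?_, ?_, ?_, ?_⟩
      · rintro s p (hp | ⟨c, rfl⟩)
        · exact Or.inl (HΓ.cl s p hp)
        · refine Or.inr ⟨op s • c, ?_⟩
          simp only [map_smul]
          rfl
      · rintro p (hp | ⟨c, rfl⟩) q (hq | ⟨d, rfl⟩) hpq
        · exact HΓ.fn p hp q hq hpq
        · exact cross p hp d hpq
        · exact (cross q hq c hpq.symm).symm
        · have : c = d := Subtype.ext hpq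
          rw [this]
      · rintro p (hp | ⟨c, rfl⟩)
        · exact HΓ.co p hp
        · exact hv'2 c
      · have e3 : Prod.fst '' Δ = Prod.fst '' Γ ∪ C := by
          rw [Set.image_union]
          congr 1
          ext x
          constructor
          · rintro ⟨_, ⟨c, rfl⟩, rfl⟩
            exact c.2
          · intro hx
            exact ⟨_, ⟨⟨x, hx⟩, rfl⟩, rfl⟩
        rw [e3]
        exact U2
    have h1 : Δ ⊆ Γ := hΓ.le_of_ge hΔ Set.subset_union_left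
    have h2 : (b₀, v' ⟨b₀, hbC⟩) ∈ Γ := h1 (Or.inr ⟨⟨b₀, hbC⟩, rfl⟩)
    exact hb₀ ⟨_, h2, rfl⟩
  choose f hf using hall
  refine ⟨{ toFun := fun b => (f b).2, map_smul' := ?_ }, ?_⟩
  · intro m b
    have h1 := HΓ.cl (unop m) (f b) (hf b).1
    rw [op_unop] at h1
    refine HΓ.fn (f (m • b)) (hf _).1 _ h1 ?_
    simp only
    rw [(hf _).2, (hf b).2]
  · ext b
    change g (f b).2 = h b
    rw [HΓ.co (f b) (hf b).1, (hf b).2]

end Pool.Agent.Q68.FC
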