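import Pool.Agent.Q68.FC.Uni

universe u

namespace Pool.Agent.Q68.FC

open MulOpposite Pool.Agent.Q55.FC

theorem TE_map {S : Type u} [Monoid S] {C F Y : Type u} [MulAction Sᵐᵒᵖ C] [MulAction Sᵐᵒᵖ F]
    [MulAction S Y] (v : C → F) (hv : ∀ (s : S) (c : C), v (op s • c) = op s • v c) {P : Set C}
    {P' : Set F} (hP : ∀ c ∈ P, v c ∈ P') {Q : Set Y} {p q : C × Y}
    (h : TE S P Q p q) : TE S P' Q (v p.1, p.2) (v q.1, q.2) := by
  induction h with
  | rel p q h =>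
    obtain ⟨a, ha, s, y, hy, rfl, rfl⟩ := h
    refine Relation.EqvGen.rel _ _ ⟨v a, hP a ha, s, y, hy, ?_, rfl⟩
    rw [← hv]
  | refl p => exact Relation.EqvGen.refl _
  | symm p q _ ih => exact Relation.EqvGen.symm _ _ ih
  | trans p q r _ _ ih1 ih2 => exact Relation.EqvGen.trans _ _ _ ih1 ih2

/-- `p` reduces to `g ∈ G × Y` -/
def Dn (S : Type u) [Monoid S] {C F Y : Type u} [MulAction Sᵐᵒᵖ C] [MulAction S Y]
    (A₀ : Set C) (G : Set F) (v : C → F) (p g : F × Y) : Prop :=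
  g.1 ∈ G ∧ (p = g ∨ ∃ c, c ∉ A₀ ∧ ∃ y, p = (v c, y) ∧ ∃ a ∈ A₀,
    TE S (Set.univ : Set C) (Set.univ : Set Y) (c, y) (a, g.2) ∧ g.1 = v a)

/-- the description of the tensor product -/
def EE (S : Type u) [Monoid S] {C F Y : Type u} [MulAction Sᵐᵒᵖ C] [MulAction Sᵐᵒᵖ F]
    [MulAction S Y] (A₀ : Set C) (G : Set F) (v : C → F) (p q : F × Y) : Prop :=
  (∃ g₁ g₂, Dn S A₀ G v p g₁ ∧ Dn S A₀ G v q g₂ ∧ TE S G (Set.univ : Set Y) g₁ g₂) ∨
  (∃ c, c ∉ A₀ ∧ ∃ y, ∃ c', c' ∉ A₀ ∧ ∃ y', p = (v c, y) ∧ q = (v c', y') ∧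
    TE S (Set.univ : Set C) (Set.univ : Set Y) (c, y) (c', y') ∧
    ¬ ∃ a ∈ A₀, ∃ y₁, TE S (Set.univ : Set C) (Set.univ : Set Y) (c, y) (a, y₁))

theorem pus : S_Pus.{u} := by
  intro S _ C F _ _ A₀ G v hA₀ hG hv hvG hinj hRA hRG
  refine ⟨fun Y _ a ha => absurd ha (Set.notMem_empty a),
    fun Y _ X hX b hb x hx a ha => absurd ha (Set.notMem_empty a), ?_⟩
  intro Y _ X hX b hb b' hb' x hx x' hx' hTE
  refine Or.inl ?_
  have vA : ∀ c ∈ A₀, v c ∈ G := fun c hc => (hvG c).2 hc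
  have vU : ∀ c ∈ (Set.univ : Set C), v c ∈ G ∪ Set.range v := fun c _ => Or.inr ⟨c, rfl⟩
  -- uniqueness of the reduction
  have D1 : ∀ p g₁ g₂ : F × Y, Dn S A₀ G v p g₁ → Dn S A₀ G v p g₂ →
      TE S G (Set.univ : Set Y) g₁ g₂ := by
    rintro p ⟨g₁, z₁⟩ ⟨g₂, z₂⟩ ⟨h1, h2⟩ ⟨h3, h4⟩
    simp only at h1 h2 h3 h4
    rcases h2 with rfl | ⟨c, hc, y, rfl, a, ha, h5, rfl⟩
    · rcases h4 with h4 | ⟨c, hc, y, h4, a, ha, h5, rfl⟩
      · rw [h4]
        exact Relation.EqvGen.refl _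
      · exfalso
        have h6 : g₁ = v c := congrArg Prod.fst h4
        rw [h6, hvG] at h1
        exact hc h1
    · rcases h4 with h4 | ⟨c', hc', y', h4, a', ha', h6, rfl⟩
      · exfalso
        have h6 : v c = g₂ := congrArg Prod.fst h4
        rw [← h6, hvG] at h3
        exact hc h3
      · have e1 : c = c' := hinj hc hc' (congrArg Prod.fst h4)
        have e2 : y = y' := congrArg Prod.snd h4
        subst e1
        subst e2
        have h7 := hRA.inj Y a ha a' ha' z₁ z₂ (TE_trans (TE_symm h5) h6)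
        exact TE_map v hv vA h7
  have Esymm : ∀ p q : F × Y, EE S A₀ G v p q → EE S A₀ G v q p := by
    rintro p q (⟨g₁, g₂, h1, h2, h3⟩ | ⟨c, hc, y, c', hc', y', h1, h2, h3, h4⟩)
    · exact Or.inl ⟨g₂, g₁, h2, h1, TE_symm h3⟩
    · refine Or.inr ⟨c', hc', y', c, hc, y, h2, h1, TE_symm h3, ?_⟩
      rintro ⟨a, ha, y₁, h5⟩
      exact h4 ⟨a, ha, y₁, TE_trans h3 h5⟩
  have nAB : ∀ (q g₂ : F × Y) (c : C) (y : Y), Dn S A₀ G v q g₂ → c ∉ A₀ → q = (v c, y) →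
      (¬ ∃ a ∈ A₀, ∃ y₁, TE S (Set.univ : Set C) (Set.univ : Set Y) (c, y) (a, y₁)) → False := by
    rintro q ⟨g₂, z₂⟩ c y ⟨h1, h2⟩ hc h3 h4
    simp only at h1 h2
    rcases h2 with rfl | ⟨c', hc', y', rfl, a, ha, h5, rfl⟩
    · have h6 : g₂ = v c := congrArg Prod.fst h3
      rw [h6, hvG] at h1
      exact hc h1
    · have e1 : c' = c := hinj hc' hc (congrArg Prod.fst h3)
      have e2 : y' = y := congrArg Prod.snd h3
      subst e1
      subst e2
      exact h4 ⟨a, ha, z₂, h5⟩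
  have Etrans : ∀ p q r : F × Y, EE S A₀ G v p q → EE S A₀ G v q r → EE S A₀ G v p r := by
    rintro p q r (⟨g₁, g₂, h1, h2, h3⟩ | ⟨c, hc, y, c', hc', y', h1, h2, h3, h4⟩)
      (⟨g₃, g₄, h5, h6, h7⟩ | ⟨d, hd, z, d', hd', z', h5, h6, h7, h8⟩)
    · exact Or.inl ⟨g₁, g₄, h1, h6, TE_trans (TE_trans h3 (D1 q g₂ g₃ h2 h5)) h7⟩
    · exact (nAB q g₂ d z h2 hd h5 h8).elim
    · refine (nAB q g₃ c' y' h5 hc' h2 ?_).elim
      rintro ⟨a, ha, y₁, h9⟩
      exact h4 ⟨a, ha, y₁, TE_trans h3 h9⟩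
    · rw [h2] at h5
      have e1 : c' = d := hinj hc' hd (congrArg Prod.fst h5)
      have e2 : y' = z := congrArg Prod.snd h5
      subst e1
      subst e2
      exact Or.inr ⟨c, hc, y, d', hd', z', h1, h6, TE_trans h3 h7, h4⟩
  have selfG : ∀ p : F × Y, p.1 ∈ G → Dn S A₀ G v p p := fun p hp => ⟨hp, Or.inl rfl⟩
  have main : ∀ p q : F × Y, TE S (G ∪ Set.range v) (Set.univ : Set Y) p q →
      p = q ∨ EE S A₀ G v p q := by
    intro p q h
    induction h with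
    | rel p q h =>
      obtain ⟨d, hd, s, y, hy, rfl, rfl⟩ := h
      refine Or.inr ?_
      by_cases hdG : d ∈ G
      · exact Or.inl ⟨(op s • d, y), (d, s • y), selfG _ (hG s d hdG), selfG _ hdG,
          Relation.EqvGen.rel _ _ ⟨d, hdG, s, y, trivial, rfl, rfl⟩⟩
      · rcases hd with hd | ⟨c, rfl⟩
        · exact absurd hd hdG
        · have hc : c ∉ A₀ := fun hc => hdG (vA c hc)
          have hstep : TE S (Set.univ : Set C) (Set.univ : Set Y) (op s • c, y) (c, s • y) :=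
            Relation.EqvGen.rel _ _ ⟨c, trivial, s, y, trivial, rfl, rfl⟩
          rw [← hv]
          by_cases hcs : op s • c ∈ A₀
          · refine Or.inl ⟨(v (op s • c), y), (v (op s • c), y), selfG _ (vA _ hcs), ?_,
              Relation.EqvGen.refl _⟩
            exact ⟨vA _ hcs, Or.inr ⟨c, hc, s • y, rfl, op s • c, hcs, TE_symm hstep, rfl⟩⟩
          · by_cases hex : ∃ a ∈ A₀, ∃ y₁,
              TE S (Set.univ : Set C) (Set.univ : Set Y) (c, s • y) (a, y₁)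
            · obtain ⟨a, ha, y₁, h1⟩ := hex
              refine Or.inl ⟨(v a, y₁), (v a, y₁), ?_, ?_, Relation.EqvGen.refl _⟩
              · exact ⟨vA _ ha, Or.inr ⟨op s • c, hcs, y, rfl, a, ha, TE_trans hstep h1, rfl⟩⟩
              · exact ⟨vA _ ha, Or.inr ⟨c, hc, s • y, rfl, a, ha, h1, rfl⟩⟩
            · refine Or.inr ⟨op s • c, hcs, y, c, hc, s • y, rfl, rfl, hstep, ?_⟩
              rintro ⟨a, ha, y₁, h1⟩
              exact hex ⟨a, ha, y₁, TE_trans (TE_symm hstep) h1⟩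
    | refl p => exact Or.inl rfl
    | symm p q _ ih =>
      rcases ih with rfl | h
      · exact Or.inl rfl
      · exact Or.inr (Esymm _ _ h)
    | trans p q r _ _ ih1 ih2 =>
      rcases ih1 with rfl | h1
      · exact ih2
      · rcases ih2 with rfl | h2
        · exact Or.inr h1
        · exact Or.inr (Etrans _ _ _ h1 h2)
  have red : ∀ (p g : F × Y), p.2 ∈ X → Dn S A₀ G v p g → ∃ h : F × Y, h.1 ∈ G ∧ h.2 ∈ X ∧
      TE S (G ∪ Set.range v) X p h ∧ TE S G (Set.univ : Set Y) h g := by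
    rintro ⟨p, xp⟩ ⟨g, z⟩ hp ⟨h1, h2⟩
    simp only at hp h1 h2
    rcases h2 with h2 | ⟨c, hc, y, h2, a, ha, h3, rfl⟩
    · refine ⟨(p, xp), ?_, hp, Relation.EqvGen.refl _, ?_⟩
      · have : p = g := congrArg Prod.fst h2
        rw [this]
        exact h1
      · rw [h2]
        exact Relation.EqvGen.refl _
    · have e1 : p = v c := congrArg Prod.fst h2
      have e2 : xp = y := congrArg Prod.snd h2
      subst e1
      subst e2
      obtain ⟨a', ha', x₁, hx₁, h4⟩ := hRA.stab Y X hX c trivial xp hp a ha z h3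
      refine ⟨(v a', x₁), vA _ ha', hx₁, TE_map v hv vU h4, ?_⟩
      have h5 : TE S (Set.univ : Set C) (Set.univ : Set Y) (a', x₁) (a, z) :=
        TE_trans (TE_symm (TE_mono subset_rfl (Set.subset_univ _) h4)) h3
      exact TE_map v hv vA (hRA.inj Y a' ha' a ha x₁ z h5)
  rcases main _ _ hTE with h | h
  · rw [h]
    exact Relation.EqvGen.refl _
  rcases h with ⟨g₁, g₂, h1, h2, h3⟩ | ⟨c, hc, y, c', hc', y', h1, h2, h3, h4⟩
  · obtain ⟨⟨k₁, x₁⟩, h5, h6, h7, h8⟩ := red (b, x) g₁ hx h1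
    obtain ⟨⟨k₂, x₂⟩, h9, h10, h11, h12⟩ := red (b', x') g₂ hx' h2
    simp only at h5 h6 h9 h10
    have h13 : TE S G (Set.univ : Set Y) (k₁, x₁) (k₂, x₂) :=
      TE_trans (TE_trans h8 h3) (TE_symm h12)
    rcases hRG.rel Y X hX k₁ h5 k₂ h9 x₁ h6 x₂ h10 h13 with h14 | ⟨a, ha, _⟩
    · exact TE_trans (TE_trans h7 (TE_mono Set.subset_union_left subset_rfl h14)) (TE_symm h11)
    · exact absurd ha (Set.notMem_empty a)
  · have e1 : b = v c := congrArg Prod.fst h1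
    have e2 : x = y := congrArg Prod.snd h1
    have e3 : b' = v c' := congrArg Prod.fst h2
    have e4 : x' = y' := congrArg Prod.snd h2
    subst e1
    subst e2
    subst e3
    subst e4
    rcases hRA.rel Y X hX c trivial c' trivial x hx x' hx' h3 with h5 | ⟨a, ha, x₁, hx₁, h5⟩
    · exact TE_map v hv vU h5
    · exact absurd ⟨a, ha, x₁, TE_mono subset_rfl (Set.subset_univ _) h5⟩ h4

end Pool.Agent.Q68.FC
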