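import Pool.Agent.Q55.FC.Stm

universe u

namespace Pool.Agent.Q68.FC

open Pool.Agent.Q55.FC

theorem rec : S_Rec.{u} := by
  classical
  intro E _ hyp I _ _ _ Φ
  -- the recursion
  let F : ∀ m : I, (∀ j : I, j < m → E × (I → E)) → E × (I → E) := fun m r =>
    let κ : I → I → E := fun i j =>
      if h : j < m then (if i < j then Φ j (r j h).1 * (r j h).2 i else 1) else 1
    let c : I → E := if h : ∃ c : I → E, ∀ i j, i ≤ j → j < m → c j * κ i j = c i then
      Classical.choose h else fun _ => 1
    let e : E := if h : ∃ i, i < m then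
      c (Classical.choose h) * Φ (Classical.choose h) (r (Classical.choose h)
        (Classical.choose_spec h)).1 * (r (Classical.choose h) (Classical.choose_spec h)).1 else 1
    (e, c)
  have wf : WellFounded (fun a b : I => a < b) := wellFounded_lt
  let R : I → E × (I → E) := wf.fix F
  have hR : ∀ m, R m = F m (fun j _ => R j) := fun m => wf.fix_eq F m
  let e : I → E := fun m => (R m).1
  let p : I → I → E := fun i m => (R m).2 i
  let κ : I → I → E := fun i j => if i < j then Φ j (e j) * p i j else 1
  have hκ1 : ∀ i, κ i i = 1 := fun i => if_neg (lt_irrefl i)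
  have hκ2 : ∀ i j, i < j → κ i j = Φ j (e j) * p i j := fun i j h => if_pos h
  have hκm : ∀ m i j, j < m → (if h : j < m then (if i < j then Φ j (R j).1 * (R j).2 i else 1)
      else (1 : E)) = κ i j := by
    intro m i j h
    rw [dif_pos h]
  have hp : ∀ m, (∃ c : I → E, ∀ i j, i ≤ j → j < m → c j * κ i j = c i) →
      ∀ i j, i ≤ j → j < m → p j m * κ i j = p i m := by
    intro m hc
    have hc' : ∃ c : I → E, ∀ i j, i ≤ j → j < m → c j * (if _ : j < m then
        (if i < j then Φ j (R j).1 * (R j).2 i else 1) else (1 : E)) = c i := by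
      obtain ⟨c, hc⟩ := hc
      refine ⟨c, fun i j h1 h2 => ?_⟩
      rw [hκm m i j h2]
      exact hc i j h1 h2
    have h1 : (fun i => p i m) = Classical.choose hc' := by
      change (R m).2 = _
      rw [hR m]
      change (if h : ∃ c : I → E, ∀ i j, i ≤ j → j < m → c j * (if _ : j < m then
        (if i < j then Φ j (R j).1 * (R j).2 i else 1) else (1 : E)) = c i then
        Classical.choose h else fun _ => 1) = _
      rw [dif_pos hc']
    intro i j hij hj
    have h2 := Classical.choose_spec hc' i j hij hj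
    rw [← h1, hκm m i j hj] at h2
    exact h2
  have he : ∀ m, (∃ i, i < m) → ∃ i, i < m ∧ e m = p i m * Φ i (e i) * e i := by
    intro m hm
    refine ⟨Classical.choose hm, Classical.choose_spec hm, ?_⟩
    change (R m).1 = (R m).2 (Classical.choose hm) * _ * _
    rw [hR m]
    exact dif_pos hm
  -- functoriality below `m`
  have hA : ∀ m, ∀ i j, i ≤ j → j < m → p j m * κ i j = p i m := by
    intro m
    induction m using wf.induction with
    | _ m ih =>
      have hfun : ∀ i j l, i ≤ j → j ≤ l → l < m → κ j l * κ i j = κ i l := by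
        intro i j l hij hjl hl
        rcases eq_or_lt_of_le hjl with rfl | hjl'
        · rw [hκ1, one_mul]
        · rw [hκ2 j l hjl', hκ2 i l (lt_of_le_of_lt hij hjl'), mul_assoc, ih l hl i j hij hjl']
      refine hp m ?_
      by_cases hne : ∃ i, i < m
      · obtain ⟨i₀, hi₀⟩ := hne
        haveI : Nonempty {j : I // j < m} := ⟨⟨i₀, hi₀⟩⟩
        obtain ⟨c, hc⟩ := hyp {j : I // j < m} (fun i j => κ i.1 j.1) (fun i => hκ1 _)
          (fun i j l h1 h2 => hfun i.1 j.1 l.1 h1 h2 l.2)
        refine ⟨fun i => if h : i < m then c ⟨i, h⟩ else 1, fun i j hij hj => ?_⟩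
        have hi : i < m := lt_of_le_of_lt hij hj
        simp only [dif_pos hi, dif_pos hj]
        exact hc ⟨i, hi⟩ ⟨j, hj⟩ hij
      · exact ⟨fun _ => 1, fun i j _ hj => absurd ⟨j, hj⟩ hne⟩
  have hfunc : ∀ i j l, i ≤ j → j ≤ l → κ j l * κ i j = κ i l := by
    intro i j l hij hjl
    rcases eq_or_lt_of_le hjl with rfl | hjl'
    · rw [hκ1, one_mul]
    · rw [hκ2 j l hjl', hκ2 i l (lt_of_le_of_lt hij hjl'), mul_assoc, hA l i j hij hjl']
  have hB : ∀ m, ∀ i, i < m → e m = p i m * Φ i (e i) * e i := by
    intro m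
    induction m using wf.induction with
    | _ m ih =>
      have hconst : ∀ i j, i < j → j < m → p j m * Φ j (e j) * e j = p i m * Φ i (e i) * e i := by
        intro i j hij hj
        have h1 := hA m i j hij.le hj
        rw [hκ2 i j hij] at h1
        calc p j m * Φ j (e j) * e j = p j m * Φ j (e j) * (p i j * Φ i (e i) * e i) := by
              rw [← ih j hj i hij]
          _ = (p j m * (Φ j (e j) * p i j)) * Φ i (e i) * e i := by simp only [mul_assoc]
          _ = p i m * Φ i (e i) * e i := by rw [h1]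
      intro i hi
      obtain ⟨i₀, hi₀, h0⟩ := he m ⟨i, hi⟩
      rcases lt_trichotomy i i₀ with h | h | h
      · rw [h0, hconst i i₀ h hi₀]
      · rw [h]
        exact h0
      · rw [h0, hconst i₀ i h hi]
  obtain ⟨c, hc⟩ := hyp I κ hκ1 hfunc
  have hconst : ∀ i j, i < j → c j * Φ j (e j) * e j = c i * Φ i (e i) * e i := by
    intro i j hij
    have h1 := hc i j hij.le
    rw [hκ2 i j hij] at h1
    have h2 := hB j i hij
    calc c j * Φ j (e j) * e j = c j * Φ j (e j) * (p i j * Φ i (e i) * e i) := by rw [← h2]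
      _ = (c j * (Φ j (e j) * p i j)) * Φ i (e i) * e i := by simp only [mul_assoc]
      _ = c i * Φ i (e i) * e i := by rw [h1]
  obtain ⟨i₀⟩ := ‹Nonempty I›
  refine ⟨c i₀ * Φ i₀ (e i₀) * e i₀, e, c, fun i => ?_, fun i j hij => ⟨p i j, ?_⟩⟩
  · rcases lt_trichotomy i i₀ with h | h | h
    · exact hconst i i₀ h
    · rw [h]
    · exact (hconst i₀ i h).symm
  · have h1 := hc i j hij.le
    rw [hκ2 i j hij] at h1
    rw [← h1, mul_assoc]

end Pool.Agent.Q68.FC
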