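import Pool.Agent.Q55.FC.Stm

universe u

namespace Pool.Agent.Q68.FC

open MulOpposite Pool.Agent.Q55.FC

theorem TE_img {S : Type u} [Monoid S] {C B Y : Type u} [MulAction Sᵐᵒᵖ C] [MulAction Sᵐᵒᵖ B]
    [MulAction S Y] (j : C →[Sᵐᵒᵖ] B) {P : Set C} {Q : Set Y} {p q : C × Y}
    (h : TE S P Q p q) : TE S (j '' P) Q (j p.1, p.2) (j q.1, q.2) := by
  induction h with
  | rel p q h =>
    obtain ⟨a, ha, s, y, hy, rfl, rfl⟩ := h
    refine Relation.EqvGen.rel _ _ ⟨j a, ⟨a, ha, rfl⟩, s, y, hy, ?_, rfl⟩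
    simp
  | refl p => exact Relation.EqvGen.refl _
  | symm p q _ ih => exact Relation.EqvGen.symm _ _ ih
  | trans p q r _ _ ih1 ih2 => exact Relation.EqvGen.trans _ _ _ ih1 ih2

theorem TE_img_aux {S : Type u} [Monoid S] {C B Y : Type u} [MulAction Sᵐᵒᵖ C]
    [MulAction Sᵐᵒᵖ B] [MulAction S Y] (j : C →[Sᵐᵒᵖ] B) (hj : Function.Injective j)
    {P : Set C} {Q : Set Y} {p q : B × Y} (h : TE S (j '' P) Q p q) :
    p = q ∨ ∃ c c' : C, p.1 = j c ∧ q.1 = j c' ∧ TE S P Q (c, p.2) (c', q.2) := by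
  induction h with
  | rel p q h =>
    obtain ⟨_, ⟨a, ha, rfl⟩, s, y, hy, rfl, rfl⟩ := h
    refine Or.inr ⟨op s • a, a, ?_, rfl, Relation.EqvGen.rel _ _ ⟨a, ha, s, y, hy, rfl, rfl⟩⟩
    simp
  | refl p => exact Or.inl rfl
  | symm p q _ ih =>
    rcases ih with rfl | ⟨c, c', h1, h2, h3⟩
    · exact Or.inl rfl
    · exact Or.inr ⟨c', c, h2, h1, Relation.EqvGen.symm _ _ h3⟩
  | trans p q r _ _ ih1 ih2 =>
    rcases ih1 with rfl | ⟨c, c', h1, h2, h3⟩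
    · exact ih2
    · rcases ih2 with rfl | ⟨d, d', h4, h5, h6⟩
      · exact Or.inr ⟨c, c', h1, h2, h3⟩
      · have : c' = d := hj (h2.symm.trans h4)
        subst this
        exact Or.inr ⟨c, d', h1, h5, Relation.EqvGen.trans _ _ _ h3 h6⟩

theorem TE_img_iff {S : Type u} [Monoid S] {C B Y : Type u} [MulAction Sᵐᵒᵖ C]
    [MulAction Sᵐᵒᵖ B] [MulAction S Y] (j : C →[Sᵐᵒᵖ] B) (hj : Function.Injective j)
    {P : Set C} {Q : Set Y} {c c' : C} {y y' : Y} :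
    TE S (j '' P) Q (j c, y) (j c', y') ↔ TE S P Q (c, y) (c', y') := by
  constructor
  · intro h
    rcases TE_img_aux j hj h with h1 | ⟨d, d', h1, h2, h3⟩
    · have h2 : c = c' := hj (congrArg Prod.fst h1)
      have h3 : y = y' := congrArg Prod.snd h1
      subst h2
      subst h3
      exact Relation.EqvGen.refl _
    · have e1 : c = d := hj h1
      have e2 : c' = d' := hj h2
      subst e1
      subst e2
      exact h3
  · intro h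
    exact TE_img j h

theorem tra : S_Tra.{u} := by
  intro S _ C B _ _ j hj A₀
  rw [← Set.image_univ]
  constructor
  · intro h
    refine ⟨?_, ?_, ?_⟩
    · intro Y _ a ha a' ha' y y' h1
      exact (TE_img_iff j hj).1 (h.inj Y (j a) ⟨a, ha, rfl⟩ (j a') ⟨a', ha', rfl⟩ y y'
        ((TE_img_iff j hj).2 h1))
    · intro Y _ X hX b hb x hx a ha y h1
      obtain ⟨_, ⟨a', ha', rfl⟩, x', hx', h2⟩ := h.stab Y X hX (j b) ⟨b, trivial, rfl⟩ x hx (j a)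
        ⟨a, ha, rfl⟩ y ((TE_img_iff j hj).2 h1)
      exact ⟨a', ha', x', hx', (TE_img_iff j hj).1 h2⟩
    · intro Y _ X hX b hb b' hb' x hx x' hx' h1
      rcases h.rel Y X hX (j b) ⟨b, trivial, rfl⟩ (j b') ⟨b', trivial, rfl⟩ x hx x' hx'
        ((TE_img_iff j hj).2 h1) with h2 | ⟨_, ⟨a, ha, rfl⟩, x₁, hx₁, h2⟩
      · exact Or.inl ((TE_img_iff j hj).1 h2)
      · exact Or.inr ⟨a, ha, x₁, hx₁, (TE_img_iff j hj).1 h2⟩
  · intro h
    refine ⟨?_, ?_, ?_⟩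
    · rintro Y _ _ ⟨a, ha, rfl⟩ _ ⟨a', ha', rfl⟩ y y' h1
      exact (TE_img_iff j hj).2 (h.inj Y a ha a' ha' y y' ((TE_img_iff j hj).1 h1))
    · rintro Y _ X hX _ ⟨b, hb, rfl⟩ x hx _ ⟨a, ha, rfl⟩ y h1
      obtain ⟨a', ha', x', hx', h2⟩ := h.stab Y X hX b hb x hx a ha y ((TE_img_iff j hj).1 h1)
      exact ⟨j a', ⟨a', ha', rfl⟩, x', hx', (TE_img_iff j hj).2 h2⟩
    · rintro Y _ X hX _ ⟨b, hb, rfl⟩ _ ⟨b', hb', rfl⟩ x hx x' hx' h1
      rcases h.rel Y X hX b hb b' hb' x hx x' hx' ((TE_img_iff j hj).1 h1) with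
        h2 | ⟨a, ha, x₁, hx₁, h2⟩
      · exact Or.inl ((TE_img_iff j hj).2 h2)
      · exact Or.inr ⟨j a, ⟨a, ha, rfl⟩, x₁, hx₁, (TE_img_iff j hj).2 h2⟩

end Pool.Agent.Q68.FC
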