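import Pool.Agent.Q55.FC.Stm

universe u

namespace Pool.Agent.Q68.FC

open MulOpposite Pool.Agent.Q55.FC

theorem TE_mono {S : Type u} [Monoid S] {B Y : Type u} [MulAction Sᵐᵒᵖ B] [MulAction S Y]
    {P P' : Set B} {Q Q' : Set Y} (hP : P ⊆ P') (hQ : Q ⊆ Q') {p q : B × Y}
    (h : TE S P Q p q) : TE S P' Q' p q := by
  refine Relation.EqvGen.mono ?_ _ _ h
  rintro _ _ ⟨a, ha, s, y, hy, rfl, rfl⟩
  exact ⟨a, hP ha, s, y, hQ hy, rfl, rfl⟩

theorem TE_symm {S : Type u} [Monoid S] {B Y : Type u} [MulAction Sᵐᵒᵖ B] [MulAction S Y]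
    {P : Set B} {Q : Set Y} {p q : B × Y}
    (h : TE S P Q p q) : TE S P Q q p := Relation.EqvGen.symm _ _ h

theorem TE_trans {S : Type u} [Monoid S] {B Y : Type u} [MulAction Sᵐᵒᵖ B] [MulAction S Y]
    {P : Set B} {Q : Set Y} {p q r : B × Y}
    (h : TE S P Q p q) (h' : TE S P Q q r) : TE S P Q p r := Relation.EqvGen.trans _ _ _ h h'

theorem RSub_univ (S : Type u) [Monoid S] (B : Type u) [MulAction Sᵐᵒᵖ B] :
    RSub S (Set.univ : Set B) := fun _ _ _ => Set.mem_univ _

theorem LSub_univ (S : Type u) [Monoid S] (Y : Type u) [MulAction S Y] :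
    LSub S (Set.univ : Set Y) := fun _ _ _ => Set.mem_univ _

theorem RSub_inter {S : Type u} [Monoid S] {B : Type u} [MulAction Sᵐᵒᵖ B] {A C : Set B}
    (hA : RSub S A) (hC : RSub S C) : RSub S (A ∩ C) :=
  fun s b hb => ⟨hA s b hb.1, hC s b hb.2⟩

theorem RSub_union {S : Type u} [Monoid S] {B : Type u} [MulAction Sᵐᵒᵖ B] {A C : Set B}
    (hA : RSub S A) (hC : RSub S C) : RSub S (A ∪ C) :=
  fun s b hb => hb.elim (fun h => Or.inl (hA s b h)) (fun h => Or.inr (hC s b h))

theorem uni : S_Uni.{u} := by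
  intro zig S _ B _ A C hA hC hF
  have su : ∀ {X : Set B}, X ⊆ Set.univ := fun {X} => Set.subset_univ X
  constructor
  · refine ⟨?_, ?_, ?_⟩
    · intro Y _ a ha a' ha' y y' h
      have h1 := hF.inj Y a ha.1 a' ha'.1 y y' (TE_mono su subset_rfl h)
      obtain ⟨w, h2, h3⟩ := (zig S B Y A Set.univ hA (LSub_univ S Y) a ha.1 y trivial a' y').1 h1
      exact (zig S B Y (A ∩ C) Set.univ (RSub_inter hA hC.sub) (LSub_univ S Y) a ha y trivial
        a' y').2 ⟨w, hC.rel w a ha a' ha' h2, h3⟩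
    · intro Y _ X hX b hb x hx a ha y h
      obtain ⟨a', ha', x', hx', h1⟩ := hF.stab Y X hX b trivial x hx a ha.1 y
        (TE_mono su subset_rfl h)
      obtain ⟨w, h2, h3⟩ := (zig S B Y Set.univ X (RSub_univ S B) hX b trivial x hx a' x').1 h1
      obtain ⟨a'', ha'', h4⟩ := hC.into w b hb a' ha' h2
      exact ⟨a'', ha'', x', hx', (zig S B Y C X hC.sub hX b hb x hx a'' x').2 ⟨w, h4, h3⟩⟩
    · intro Y _ X hX b hb b' hb' x hx x' hx' h
      rcases hF.rel Y X hX b trivial b' trivial x hx x' hx' (TE_mono su subset_rfl h) with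
        h1 | ⟨a, ha, x₁, hx₁, h1⟩
      · obtain ⟨w, h2, h3⟩ := (zig S B Y Set.univ X (RSub_univ S B) hX b trivial x hx b' x').1 h1
        exact Or.inl ((zig S B Y C X hC.sub hX b hb x hx b' x').2 ⟨w, hC.two w b hb b' hb' h2, h3⟩)
      · obtain ⟨w, h2, h3⟩ := (zig S B Y Set.univ X (RSub_univ S B) hX b trivial x hx a x₁).1 h1
        obtain ⟨a'', ha'', h4⟩ := hC.into w b hb a ha h2
        exact Or.inr ⟨a'', ha'', x₁, hx₁,
          (zig S B Y C X hC.sub hX b hb x hx a'' x₁).2 ⟨w, h4, h3⟩⟩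
  · have key : ∀ (Y : Type u) [MulAction S Y], ∀ c ∈ C, ∀ a ∈ A, ∀ y y' : Y,
        TE S Set.univ Set.univ (c, y) (a, y') → TE S (A ∪ C) Set.univ (c, y) (a, y') := by
      intro Y _ c hc a ha y y' h
      obtain ⟨w, h2, h3⟩ := (zig S B Y Set.univ Set.univ (RSub_univ S B) (LSub_univ S Y) c trivial
        y trivial a y').1 h
      obtain ⟨a₀, ha₀, h4⟩ := hC.into w c hc a ha h2
      have h5 := (zig S B Y C Set.univ hC.sub (LSub_univ S Y) c hc y trivial a₀ y').2 ⟨w, h4, h3⟩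
      have h6 : TE S Set.univ Set.univ (a₀, y') (a, y') :=
        TE_trans (TE_symm (TE_mono su subset_rfl h5)) h
      exact TE_trans (TE_mono Set.subset_union_right subset_rfl h5)
        (TE_mono Set.subset_union_left subset_rfl (hF.inj Y a₀ ha₀.1 a ha y' y' h6))
    refine ⟨?_, ?_, ?_⟩
    · intro Y _ a ha a' ha' y y' h
      rcases ha with ha | ha
      · rcases ha' with ha' | ha'
        · exact TE_mono Set.subset_union_left subset_rfl (hF.inj Y a ha a' ha' y y' h)
        · exact TE_symm (key Y a' ha' a ha y' y (TE_symm h))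
      · rcases ha' with ha' | ha'
        · exact key Y a ha a' ha' y y' h
        · obtain ⟨w, h2, h3⟩ := (zig S B Y Set.univ Set.univ (RSub_univ S B) (LSub_univ S Y) a
            trivial y trivial a' y').1 h
          exact TE_mono Set.subset_union_right subset_rfl
            ((zig S B Y C Set.univ hC.sub (LSub_univ S Y) a ha y trivial a' y').2
              ⟨w, hC.two w a ha a' ha' h2, h3⟩)
    · intro Y _ X hX b hb x hx a ha y h
      rcases ha with ha | ha
      · obtain ⟨a', ha', x', hx', h1⟩ := hF.stab Y X hX b trivial x hx a ha y h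
        exact ⟨a', Or.inl ha', x', hx', h1⟩
      · obtain ⟨w, h2, h3⟩ := (zig S B Y Set.univ Set.univ (RSub_univ S B) (LSub_univ S Y) a
            trivial y trivial b x).1 (TE_symm h)
        obtain ⟨c', hc', h4⟩ := hC.one w a ha b h2
        have h5 := (zig S B Y C Set.univ hC.sub (LSub_univ S Y) a ha y trivial c' x).2 ⟨w, h4, h3⟩
        have h6 : TE S Set.univ Set.univ (b, x) (c', x) :=
          TE_trans h (TE_mono su subset_rfl h5)
        rcases hF.rel Y X hX b trivial c' trivial x hx x hx h6 with h7 | ⟨a₁, ha₁, x₁, hx₁, h7⟩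
        · exact ⟨c', Or.inr hc', x, hx, h7⟩
        · exact ⟨a₁, Or.inl ha₁, x₁, hx₁, h7⟩
    · intro Y _ X hX b hb b' hb' x hx x' hx' h
      rcases hF.rel Y X hX b trivial b' trivial x hx x' hx' h with h1 | ⟨a, ha, x₁, hx₁, h1⟩
      · exact Or.inl h1
      · exact Or.inr ⟨a, Or.inl ha, x₁, hx₁, h1⟩

end Pool.Agent.Q68.FC
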