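import Pool.Agent.Q55.FC.Stm

universe u

namespace Pool.Agent.Q68.FC

open MulOpposite Pool.Agent.Q55.FC

/-- a small relatively flat inclusion over `A` -/
structure Cell (S : Type u) [Monoid S] (A : Type u) [MulAction Sᵐᵒᵖ A] : Type u where
  K : Set (ℕ × S)
  act : MulAction Sᵐᵒᵖ K
  A₀ : Set K
  sub : RSub S A₀
  rf : RF S A₀ Set.univ
  ψ : K →[Sᵐᵒᵖ] A

attribute [instance] Cell.act

/-- the type of the terms -/
inductive Tm (S : Type u) [Monoid S] (A : Type u) [MulAction Sᵐᵒᵖ A] : Type u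
  | mk (j : Cell S A) (v : j.A₀ → Tm S A) (b : j.K) (hb : b ∉ j.A₀) : Tm S A

section

variable {S : Type u} [Monoid S] {A : Type u} [MulAction Sᵐᵒᵖ A]

open Classical in
/-- the action -/
noncomputable def Tm.act : Tm S A → S → Tm S A
  | .mk j v b _, s => if h : op s • b ∈ j.A₀ then v ⟨op s • b, h⟩ else .mk j v (op s • b) h

/-- the projection to `A` -/
def Tm.γ : Tm S A → A
  | .mk j _ b _ => j.ψ b

/-- the good terms -/
def Good : Tm S A → Prop
  | .mk j v _ _ => (∀ a, Good (v a)) ∧ (∀ a : j.A₀, (v a).γ = j.ψ (a : j.K)) ∧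
    ∀ (s : S) (a a' : j.A₀), (a' : j.K) = op s • (a : j.K) → v a' = (v a).act s

theorem act_v (j : Cell S A) (v : j.A₀ → Tm S A) (b : j.K) (hb : b ∉ j.A₀) (s : S) (b' : j.K)
    (hb' : b' ∈ j.A₀) (h : b' = op s • b) : (Tm.mk j v b hb).act s = v ⟨b', hb'⟩ := by
  subst h
  exact dif_pos hb'

theorem act_mk (j : Cell S A) (v : j.A₀ → Tm S A) (b : j.K) (hb : b ∉ j.A₀) (s : S) (b' : j.K)
    (hb' : b' ∉ j.A₀) (h : b' = op s • b) : (Tm.mk j v b hb).act s = Tm.mk j v b' hb' := by
  subst h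
  exact dif_neg hb'

theorem good_act (t : Tm S A) (ht : Good t) (s : S) : Good (t.act s) := by
  obtain ⟨j, v, b, hb⟩ := t
  by_cases h : op s • b ∈ j.A₀
  · rw [act_v j v b hb s _ h rfl]
    exact ht.1 _
  · rw [act_mk j v b hb s _ h rfl]
    exact ht

theorem act_one (t : Tm S A) : t.act 1 = t := by
  obtain ⟨j, v, b, hb⟩ := t
  exact act_mk j v b hb 1 b hb (by simp)

theorem act_mul (t : Tm S A) (ht : Good t) (s s' : S) : t.act (s * s') = (t.act s).act s' := by
  obtain ⟨j, v, b, hb⟩ := t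
  have e : op (s * s') • b = op s' • op s • b := by rw [op_mul, mul_smul]
  by_cases h : op s • b ∈ j.A₀
  · rw [act_v j v b hb s _ h rfl, act_v j v b hb (s * s') (op s' • op s • b)
      (j.sub s' _ h) e.symm]
    exact ht.2.2 s' ⟨op s • b, h⟩ ⟨op s' • op s • b, j.sub s' _ h⟩ rfl
  · rw [act_mk j v b hb s _ h rfl]
    by_cases h' : op s' • op s • b ∈ j.A₀
    · rw [act_v j v b hb (s * s') _ h' e.symm, act_v j v _ h s' _ h' rfl]
    · rw [act_mk j v b hb (s * s') _ h' e.symm, act_mk j v _ h s' _ h' rfl]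

theorem γ_act (t : Tm S A) (ht : Good t) (s : S) : (t.act s).γ = op s • t.γ := by
  obtain ⟨j, v, b, hb⟩ := t
  by_cases h : op s • b ∈ j.A₀
  · rw [act_v j v b hb s _ h rfl, ht.2.1]
    change j.ψ (op s • b) = op s • j.ψ b
    simp
  · rw [act_mk j v b hb s _ h rfl]
    change j.ψ (op s • b) = op s • j.ψ b
    simp

variable (S A) in
/-- the act of the good terms -/
def FF : Type u := {t : Tm S A // Good t}

noncomputable instance : MulAction Sᵐᵒᵖ (FF S A) where
  smul m t := ⟨t.1.act (unop m), good_act t.1 t.2 _⟩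
  one_smul t := Subtype.ext (act_one t.1)
  mul_smul m m' t := Subtype.ext (act_mul t.1 t.2 (unop m') (unop m))

theorem smul_val (m : Sᵐᵒᵖ) (t : FF S A) : (m • t).1 = t.1.act (unop m) := rfl

/-- the projection to `A` -/
noncomputable def γF : FF S A →[Sᵐᵒᵖ] A where
  toFun t := t.1.γ
  map_smul' m t := γ_act t.1 t.2 (unop m)

theorem γF_apply (t : FF S A) : γF t = t.1.γ := rfl

/-- the extension of `v` to the whole cell -/
theorem ext_cell (j : Cell S A) (v : j.A₀ → Tm S A) (hv : (∀ a, Good (v a)) ∧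
    (∀ a : j.A₀, (v a).γ = j.ψ (a : j.K)) ∧
    ∀ (s : S) (a a' : j.A₀), (a' : j.K) = op s • (a : j.K) → v a' = (v a).act s) :
    ∃ v' : j.K →[Sᵐᵒᵖ] FF S A, (∀ a : j.A₀, (v' (a : j.K)).1 = v a) ∧
      (∀ (b : j.K) (hb : b ∉ j.A₀), (v' b).1 = Tm.mk j v b hb) ∧ ∀ b, γF (v' b) = j.ψ b := by
  classical
  let w : j.K → FF S A := fun b =>
    if h : b ∈ j.A₀ then ⟨v ⟨b, h⟩, hv.1 _⟩ else ⟨Tm.mk j v b h, hv⟩
  have w1 : ∀ (b : j.K) (h : b ∈ j.A₀), (w b).1 = v ⟨b, h⟩ := by
    intro b h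
    have : w b = ⟨v ⟨b, h⟩, hv.1 _⟩ := dif_pos h
    rw [this]
  have w2 : ∀ (b : j.K) (h : b ∉ j.A₀), (w b).1 = Tm.mk j v b h := by
    intro b h
    have : w b = ⟨Tm.mk j v b h, hv⟩ := dif_neg h
    rw [this]
  refine ⟨{ toFun := w, map_smul' := ?_ }, fun a => w1 _ a.2, w2, ?_⟩
  · intro m b
    refine Subtype.ext ?_
    rw [smul_val]
    change (w (m • b)).1 = (w b).1.act (unop m)
    by_cases h : b ∈ j.A₀
    · have h' : m • b ∈ j.A₀ := by
        have := j.sub (unop m) b h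
        rwa [op_unop] at this
      rw [w1 _ h, w1 _ h']
      exact hv.2.2 (unop m) ⟨b, h⟩ ⟨m • b, h'⟩ (by simp)
    · rw [w2 _ h]
      by_cases h' : m • b ∈ j.A₀
      · rw [w1 _ h']
        exact (act_v j v b h (unop m) (m • b) h' (by simp)).symm
      · rw [w2 _ h']
        exact (act_mk j v b h (unop m) (m • b) h' (by simp)).symm
  · intro b
    rw [γF_apply]
    change (w b).1.γ = j.ψ b
    by_cases h : b ∈ j.A₀
    · rw [w1 _ h]
      exact hv.2.1 _
    · rw [w2 _ h]
      rfl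

/-- closed subsets of the act of the terms -/
def Clsd (G : Set (FF S A)) : Prop :=
  ∀ (j : Cell S A) (v : j.A₀ → Tm S A) (b : j.K) (hb : b ∉ j.A₀) (t : FF S A), t ∈ G →
    t.1 = Tm.mk j v b hb → (∀ (a : j.A₀) (t' : FF S A), t'.1 = v a → t' ∈ G) ∧
      ∀ (b' : j.K) (hb' : b' ∉ j.A₀) (t' : FF S A), t'.1 = Tm.mk j v b' hb' → t' ∈ G

theorem flat_FF (pus : S_Pus.{u}) (cha : S_Cha.{u}) :
    RF S (∅ : Set (FF S A)) Set.univ := by
  obtain ⟨G, -, hG⟩ := zorn_subset_nonempty
    {G : Set (FF S A) | RSub S G ∧ RF S (∅ : Set (FF S A)) G ∧ Clsd G} (by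
      intro c hc hchain hne
      refine ⟨⋃₀ c, ⟨?_, ?_, ?_⟩, fun s hs => Set.subset_sUnion_of_mem hs⟩
      · rintro s b ⟨G, hG, hb⟩
        exact ⟨G, hG, (hc hG).1 s b hb⟩
      · exact (cha S (FF S A) c hne hchain (fun P hP => (hc hP).1)).2 (fun P hP => (hc hP).2.1)
      · rintro j v b hb t ⟨G, hG, ht⟩ e
        obtain ⟨h1, h2⟩ := (hc hG).2.2 j v b hb t ht e
        exact ⟨fun a t' h => ⟨G, hG, h1 a t' h⟩, fun b' hb' t' h => ⟨G, hG, h2 b' hb' t' h⟩⟩)
    ∅ ⟨fun s b hb => absurd hb (Set.notMem_empty b),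
      ⟨fun Y _ a ha => absurd ha (Set.notMem_empty a),
        fun Y _ X hX b hb => absurd hb (Set.notMem_empty b),
        fun Y _ X hX b hb => absurd hb (Set.notMem_empty b)⟩,
      fun j v b hb t ht => absurd ht (Set.notMem_empty t)⟩
  obtain ⟨hG1, hG2, hG3⟩ := hG.prop
  have hall : ∀ (t : Tm S A) (ht : Good t), (⟨t, ht⟩ : FF S A) ∈ G := by
    intro t
    induction t with
    | mk j v b hb ih =>
      intro ht
      by_contra hn
      obtain ⟨v', hv1, hv2, -⟩ := ext_cell j v ht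
      have hvG : ∀ a : j.A₀, v' (a : j.K) ∈ G := by
        intro a
        have h1 : v' (a : j.K) = ⟨v a, ht.1 a⟩ := Subtype.ext (hv1 a)
        rw [h1]
        exact ih a (ht.1 a)
      have hnG : ∀ b' : j.K, b' ∉ j.A₀ → v' b' ∉ G := by
        intro b' hb' h
        exact hn ((hG3 j v b' hb' _ h (hv2 b' hb')).2 b hb ⟨_, ht⟩ rfl)
      have hnew := pus S j.K (FF S A) j.A₀ G v' j.sub hG1 (fun s c => by simp)
        (fun c => ⟨fun h => by
          by_contra hc
          exact hnG c hc h, fun h => hvG ⟨c, h⟩⟩)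
        (by
          intro b₁ hb₁ b₂ hb₂ h
          have h1 := congrArg Subtype.val h
          rw [hv2 b₁ hb₁, hv2 b₂ hb₂] at h1
          injection h1)
        j.rf hG2
      have hmem : (G ∪ Set.range v') ∈
          {G : Set (FF S A) | RSub S G ∧ RF S (∅ : Set (FF S A)) G ∧ Clsd G} := by
        refine ⟨?_, hnew, ?_⟩
        · rintro s t (h | ⟨c, rfl⟩)
          · exact Or.inl (hG1 s t h)
          · exact Or.inr ⟨op s • c, by simp⟩
        · have hGc : ∀ (j' : Cell S A) (w : j'.A₀ → Tm S A) (b₂ : j'.K) (hb₂ : b₂ ∉ j'.A₀)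
              (t : FF S A), t ∈ G → t.1 = Tm.mk j' w b₂ hb₂ →
              (∀ (a : j'.A₀) (t' : FF S A), t'.1 = w a → t' ∈ G ∪ Set.range v') ∧
              ∀ (b' : j'.K) (hb' : b' ∉ j'.A₀) (t' : FF S A), t'.1 = Tm.mk j' w b' hb' →
                t' ∈ G ∪ Set.range v' := by
            intro j' w b₂ hb₂ t h e
            obtain ⟨h1, h2⟩ := hG3 j' w b₂ hb₂ t h e
            exact ⟨fun a t' h => Or.inl (h1 a t' h), fun b' hb' t' h => Or.inl (h2 b' hb' t' h)⟩
          rintro j' w b₂ hb₂ t (h | ⟨c, rfl⟩) e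
          · exact hGc j' w b₂ hb₂ t h e
          · by_cases hc : c ∈ j.A₀
            · exact hGc j' w b₂ hb₂ _ (hvG ⟨c, hc⟩) e
            · rw [hv2 c hc] at e
              cases e
              refine ⟨fun a t' h => Or.inl ?_, fun b' hb' t' h => Or.inr ⟨b', ?_⟩⟩
              · have h1 : t' = ⟨v a, ht.1 a⟩ := Subtype.ext h
                rw [h1]
                exact ih a (ht.1 a)
              · exact Subtype.ext ((hv2 b' hb').trans h.symm)
      have h1 : G ∪ Set.range v' ⊆ G := hG.le_of_ge hmem Set.subset_union_left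
      have h2 : v' b ∈ G := h1 (Or.inr ⟨b, rfl⟩)
      exact hnG b hb h2
  have huniv : G = Set.univ := Set.eq_univ_of_forall fun t => hall t.1 t.2
  rw [← huniv]
  exact hG2

end

theorem wty : S_Wty.{u} := by
  classical
  intro pus cha tra S _ A _
  refine ⟨FF S A, inferInstance, γF, flat_FF pus cha, ?_⟩
  intro C _ A₀ hA₀ hRF ⟨i, hi⟩ ψ v hv1 hv2
  let e : C ≃ Set.range i := Equiv.ofInjective i hi
  letI actK : MulAction Sᵐᵒᵖ (Set.range i) := Equiv.mulAction Sᵐᵒᵖ e.symm
  have e_smul : ∀ (m : Sᵐᵒᵖ) (c : C), e (m • c) = m • e c := by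
    intro m c
    have : m • e c = e.symm.symm (m • e.symm (e c)) := rfl
    rw [this]
    simp
  have es_smul : ∀ (m : Sᵐᵒᵖ) (c : Set.range i), e.symm (m • c) = m • e.symm c := by
    intro m c
    apply e.injective
    rw [e_smul]
    simp
  let eh : C →[Sᵐᵒᵖ] (Set.range i) := { toFun := e, map_smul' := e_smul }
  let K₀ : Set (Set.range i) := {x | e.symm x ∈ A₀}
  have hK₀ : eh '' A₀ = K₀ := by
    ext x
    constructor
    · rintro ⟨a, ha, rfl⟩
      change e.symm (e a) ∈ A₀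
      simpa using ha
    · intro hx
      exact ⟨e.symm x, hx, e.apply_symm_apply x⟩
  have hr : Set.range eh = Set.univ := Set.range_eq_univ.2 e.surjective
  let j : Cell S A :=
    { K := Set.range i
      act := actK
      A₀ := K₀
      sub := by
        intro s b hb
        change e.symm (op s • b) ∈ A₀
        rw [es_smul]
        exact hA₀ s _ hb
      rf := by
        have := (tra S C (Set.range i) eh e.injective A₀).2 hRF
        rw [hK₀, hr] at this
        exact this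
      ψ :=
        { toFun := fun x => ψ (e.symm x)
          map_smul' := by
            intro m x
            rw [es_smul]
            simp } }
  let w : j.A₀ → Tm S A := fun a => (v ⟨e.symm a.1, a.2⟩).1
  obtain ⟨v', h1, h2, h3⟩ := ext_cell j w ⟨fun a => (v _).2, fun a => by
    have := hv2 ⟨e.symm a.1, a.2⟩
    exact this, fun s a a' haa => by
    have h4 := hv1 s ⟨e.symm a.1, a.2⟩ ⟨e.symm a'.1, a'.2⟩ (by
      simp only
      rw [haa]
      exact es_smul _ _)
    exact congrArg Subtype.val h4⟩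
  refine ⟨{ toFun := fun c => v' (e c), map_smul' := ?_ }, ?_, ?_⟩
  · intro m c
    have h5 : e (m • c) = m • e c := e_smul m c
    have h6 : v' (m • (e c : j.K)) = m • v' (e c) := map_smul v' m _
    exact (congrArg v' h5).trans h6
  · intro a
    have h7 : (e (a : C)) ∈ K₀ := by
      change e.symm (e (a : C)) ∈ A₀
      rw [e.symm_apply_apply]
      exact a.2
    have h8 := h1 ⟨e (a : C), h7⟩
    refine Subtype.ext (h8.trans ?_)
    change (v ⟨e.symm (e (a : C)), _⟩).1 = (v a).1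
    congr 2
    exact Subtype.ext (e.symm_apply_apply _)
  · intro c
    have h9 := h3 (e c)
    refine h9.trans ?_
    change ψ (e.symm (e c)) = ψ c
    rw [e.symm_apply_apply]

end Pool.Agent.Q68.FC
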