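import Pool.Agent.Q55.FC.Stm

universe u

namespace Pool.Agent.Q68.FC

open MulOpposite Pool.Agent.Q55.FC

theorem ZB_append {S : Type u} [Monoid S] {B : Type u} [MulAction Sᵐᵒᵖ B] {P : Set B} :
    ∀ (w w' : List (Bool × S)) (b c d : B), ZB P w b c → ZB P w' c d → ZB P (w ++ w') b d
  | [], w', b, c, d, h, h' => by
      have : b = c := h
      subst this
      exact h'
  | (true, s) :: w, w', b, c, d, h, h' => by
      obtain ⟨e, he, hb, h⟩ := h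
      exact ⟨e, he, hb, ZB_append w w' e c d h h'⟩
  | (false, s) :: w, w', b, c, d, h, h' => ZB_append w w' (op s • b) c d h h'

theorem ZY_append {S : Type u} [Monoid S] {Y : Type u} [MulAction S Y] {Q : Set Y} :
    ∀ (w w' : List (Bool × S)) (b c d : Y), ZY Q w b c → ZY Q w' c d → ZY Q (w ++ w') b d
  | [], w', b, c, d, h, h' => by
      have : b = c := h
      subst this
      exact h'
  | (true, s) :: w, w', b, c, d, h, h' => ZY_append w w' (s • b) c d h h'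
  | (false, s) :: w, w', b, c, d, h, h' => by
      obtain ⟨e, he, hb, h⟩ := h
      exact ⟨e, he, hb, ZY_append w w' e c d h h'⟩

theorem zig_back {S : Type u} [Monoid S] {B Y : Type u} [MulAction Sᵐᵒᵖ B] [MulAction S Y]
    {P : Set B} {Q : Set Y} (hP : RSub S P) (hQ : LSub S Q) :
    ∀ (w : List (Bool × S)) (b b' : B) (y y' : Y), b ∈ P → y ∈ Q → ZB P w b b' → ZY Q w y y' →
      TE S P Q (b, y) (b', y')
  | [], b, b', y, y', hb, hy, h, h' => by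
      have h1 : b = b' := h
      have h2 : y = y' := h'
      subst h1
      subst h2
      exact Relation.EqvGen.refl _
  | (true, s) :: w, b, b', y, y', hb, hy, h, h' => by
      obtain ⟨c, hc, rfl, h⟩ := h
      exact Relation.EqvGen.trans _ (c, s • y) _ (Relation.EqvGen.rel _ _ ⟨c, hc, s, y, hy, rfl, rfl⟩)
        (zig_back hP hQ w c b' (s • y) y' hc (hQ s y hy) h h')
  | (false, s) :: w, b, b', y, y', hb, hy, h, h' => by
      obtain ⟨z, hz, rfl, h'⟩ := h'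
      exact Relation.EqvGen.trans _ (op s • b, z) _
        (Relation.EqvGen.symm _ _ (Relation.EqvGen.rel _ _ ⟨b, hb, s, z, hz, rfl, rfl⟩))
        (zig_back hP hQ w (op s • b) b' z y' (hP s b hb) hz h h')

theorem zig_forw {S : Type u} [Monoid S] {B Y : Type u} [MulAction Sᵐᵒᵖ B] [MulAction S Y]
    {P : Set B} {Q : Set Y} (hP : RSub S P) (hQ : LSub S Q) (p q : B × Y) (h : TE S P Q p q) :
    ((p.1 ∈ P ∧ p.2 ∈ Q) ↔ (q.1 ∈ P ∧ q.2 ∈ Q)) ∧
    ((p.1 ∈ P ∧ p.2 ∈ Q) → ∃ w : List (Bool × S), ZB P w p.1 q.1 ∧ ZY Q w p.2 q.2) ∧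
    ((q.1 ∈ P ∧ q.2 ∈ Q) → ∃ w : List (Bool × S), ZB P w q.1 p.1 ∧ ZY Q w q.2 p.2) := by
  induction h with
  | rel p q h =>
    obtain ⟨a, ha, s, y, hy, rfl, rfl⟩ := h
    refine ⟨⟨fun _ => ⟨ha, hQ s y hy⟩, fun _ => ⟨hP s a ha, hy⟩⟩, fun _ => ⟨[(true, s)], ?_, ?_⟩,
      fun _ => ⟨[(false, s)], ?_, ?_⟩⟩
    · exact ⟨a, ha, rfl, rfl⟩
    · exact rfl
    · exact rfl
    · exact ⟨y, hy, rfl, rfl⟩
  | refl p => exact ⟨Iff.rfl, fun _ => ⟨[], rfl, rfl⟩, fun _ => ⟨[], rfl, rfl⟩⟩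
  | symm p q _ ih => exact ⟨ih.1.symm, ih.2.2, ih.2.1⟩
  | trans p q r _ _ ih1 ih2 =>
    refine ⟨ih1.1.trans ih2.1, fun hp => ?_, fun hr => ?_⟩
    · obtain ⟨w, h1, h2⟩ := ih1.2.1 hp
      obtain ⟨w', h3, h4⟩ := ih2.2.1 (ih1.1.1 hp)
      exact ⟨w ++ w', ZB_append _ _ _ _ _ h1 h3, ZY_append _ _ _ _ _ h2 h4⟩
    · obtain ⟨w, h1, h2⟩ := ih2.2.2 hr
      obtain ⟨w', h3, h4⟩ := ih1.2.2 (ih2.1.2 hr)
      exact ⟨w ++ w', ZB_append _ _ _ _ _ h1 h3, ZY_append _ _ _ _ _ h2 h4⟩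

theorem zig : S_Zig.{u} := by
  intro S _ B Y _ _ P Q hP hQ b hb y hy b' y'
  constructor
  · intro h
    exact (zig_forw hP hQ (b, y) (b', y') h).2.1 ⟨hb, hy⟩
  · rintro ⟨w, h1, h2⟩
    exact zig_back hP hQ w b b' y y' hb hy h1 h2

end Pool.Agent.Q68.FC
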